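import Pool.Agent.helper35.FOL.F15
import Pool.Agent.helper32.FolG.FinalU
import Pool.Agent.helper97.FG.N12

/-!
# Genus of the leaves of `C¹`-generic codimension-one foliations of closed 3-manifolds

For every closed smooth 3-manifold `M` the co-oriented foliations of class `C¹` of `M` all of whose
leaves have genus `0` or `1` form a residual set for the `C¹` topology (Q1 of MP_f9b4a8_gt for
`r = 1`).  The definitions are in `Pool/Agent/helper35/FOL/Defs.lean`.

Proof.  A foliation with a leaf of genus at least two lies in the frontier of one of countably many
closed sets of foliations (foliations with eight curves of Lipschitz constant `k`, tangent up to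
second order with constant `k`, close to given continuous curves, and closing up as the generators of
the fundamental group of the surface of genus two with one boundary circle): by a `C¹`-small change of
the foliation near a compact piece of genus two of the leaf, which does not change the holonomy of the
boundary of the piece, the common fixed points of the four holonomy maps disappear from a whole
interval (`TheoremG`, a statement on `C¹` diffeomorphisms of the line).
-/

namespace Pool.Agent.Results.MP_f9b4a8_gt.GenericGenusC1

open Pool.Agent.helper35.FOL

/-- For every closed smooth 3-manifold `M`, the set of the (co-oriented, codimension-one)
foliations of `M` of class `C¹` without a leaf of genus at least two is residual in the space of all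
such foliations with the `C¹` topology. -/
theorem result {n : ℕ} (M : ClosedMfd n) :
    {F : Fol M | ∀ x ∈ M.carrier, ¬ GenusAtLeastTwo F x} ∈ residual (Fol M) := by
  filter_upwards [main (Pool.Agent.helper32.FolG.theoremG_of_UnitN FG.unitN) M] with F hF x _ h
  obtain ⟨κ, hκ, -⟩ := h
  exact hF κ hκ

end Pool.Agent.Results.MP_f9b4a8_gt.GenericGenusC1
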